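import Mathlib
import Pool.Agent.H7.GF.Basic
import Pool.Agent.H7.GF.Targets2

/-!
# MP_cd65c5_nt, module CLS: points of a box in prescribed residue classes
-/

set_option autoImplicit false

namespace Pool.Agent.H58.GF

open Polynomial NumberField Module
open Pool.Agent.H7.GF

/-- integers of an interval in a residue class -/
theorem card_class_le (S C : ℕ) (hC : 0 < C) (v : ℤ) :
    ((((Finset.Icc (-(S : ℤ)) (S : ℤ)).filter (fun x => x ≡ v [ZMOD (C : ℤ)])).card : ℕ) : ℝ) ≤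
      (2 * (S : ℝ) + 1) / C + 1 := by
  have e : Finset.Icc (-(S : ℤ)) (S : ℤ) = Finset.Ioc (-(S : ℤ) - 1) (S : ℤ) := by
    ext x
    simp only [Finset.mem_Icc, Finset.mem_Ioc]
    omega
  rw [e]
  have h := Int.Ioc_filter_modEq_card (-(S : ℤ) - 1) (S : ℤ) (r := (C : ℤ)) (by exact_mod_cast hC) v
  have hCq : (0 : ℚ) < C := by exact_mod_cast hC
  have h1 : ((⌊(((S : ℤ) - v : ℤ) : ℚ) / ((C : ℤ) : ℚ)⌋ : ℤ) : ℚ) ≤ (((S : ℤ) - v : ℤ) : ℚ) / ((C : ℤ) : ℚ) := Int.floor_le _
  have h2 : ((((-(S : ℤ) - 1) - v : ℤ) : ℚ) / ((C : ℤ) : ℚ)) < ((⌊(((-(S : ℤ) - 1) - v : ℤ) : ℚ) / ((C : ℤ) : ℚ)⌋ : ℤ) : ℚ) + 1 :=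
    Int.lt_floor_add_one _
  have h3 : (((((Finset.Ioc (-(S : ℤ) - 1) (S : ℤ)).filter (fun x => x ≡ v [ZMOD (C : ℤ)])).card : ℕ) : ℤ) : ℚ) ≤
      (2 * (S : ℚ) + 1) / C + 1 := by
    rw [h]
    push_cast at h1 h2 ⊢
    refine max_le ?_ ?_
    · have e2 : ((S : ℚ) - v) / C - (-(S : ℚ) - 1 - v) / C = (2 * (S : ℚ) + 1) / C := by
        rw [← sub_div]
        congr 1
        ring
      linarith
    · positivity
  have h4 : (((((Finset.Ioc (-(S : ℤ) - 1) (S : ℤ)).filter (fun x => x ≡ v [ZMOD (C : ℤ)])).card : ℕ) : ℚ) : ℝ) ≤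
      (((2 * (S : ℚ) + 1) / C + 1 : ℚ) : ℝ) := by
    exact_mod_cast h3
  push_cast at h4
  exact h4

/-- integers congruent modulo all primes dividing a squarefree number -/
theorem modEq_of_primes {C : ℕ} (hC : Squarefree C) {x y : ℤ}
    (h : ∀ p ∈ C.primeFactors, (x : ZMod p) = (y : ZMod p)) : x ≡ y [ZMOD (C : ℤ)] := by
  have h1 : ((∏ p ∈ C.primeFactors, (p : ℤ)) : ℤ) ∣ x - y := by
    refine Finset.prod_dvd_of_coprime ?_ ?_
    · intro p hp q hq hpq
      have hp' := Nat.prime_of_mem_primeFactors (Finset.mem_coe.1 hp)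
      have hq' := Nat.prime_of_mem_primeFactors (Finset.mem_coe.1 hq)
      have := (Nat.coprime_primes hp' hq').2 hpq
      exact Nat.isCoprime_iff_coprime.2 this
    · intro p hp
      have := h p hp
      rw [← sub_eq_zero, ← Int.cast_sub] at this
      exact (ZMod.intCast_zmod_eq_zero_iff_dvd _ _).1 this
  have h2 : (∏ p ∈ C.primeFactors, (p : ℤ)) = (C : ℤ) := by
    have := congrArg (fun n : ℕ => (n : ℤ)) (Nat.prod_primeFactors_of_squarefree hC)
    simpa using this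
  rw [h2] at h1
  exact (Int.modEq_iff_dvd.2 h1).symm

open Classical in
/-- points of a box in prescribed residue classes -/
theorem cls : T_CLS := by
  intro m S C Z hC
  have hC0 : 0 < C := Nat.pos_of_ne_zero hC.ne_zero
  set B : Finset (Fin m → ℤ) := Fintype.piFinset (fun i => Finset.Icc (-(S i : ℤ)) (S i : ℤ)) with hB
  set A : Finset (Fin m → ℤ) := B.filter (fun a => ∀ p, p.Prime → p ∣ C → red p a ∈ Z p) with hA
  have hmemB : ∀ a, a ∈ B ↔ ∀ i, |a i| ≤ (S i : ℤ) := by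
    intro a
    rw [hB, Fintype.mem_piFinset]
    simp only [Finset.mem_Icc, abs_le]
  have hset : {a : Fin m → ℤ | (∀ i, |a i| ≤ (S i : ℤ)) ∧ ∀ p, p.Prime → p ∣ C → red p a ∈ Z p} =
      (A : Set (Fin m → ℤ)) := by
    ext a
    rw [hA, Finset.coe_filter]
    simp only [Set.mem_ofPred_eq, hmemB]
  rw [hset, Set.ncard_coe_finset]
  have hfin : ∀ p : C.primeFactors, (Z (p : ℕ)).Finite := by
    intro p
    haveI : NeZero (p : ℕ) := ⟨(Nat.prime_of_mem_primeFactors p.2).ne_zero⟩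
    exact Set.toFinite _
  set T : Finset (∀ p : C.primeFactors, Fin m → ZMod (p : ℕ)) :=
    Fintype.piFinset (fun p => (hfin p).toFinset) with hT
  have hTc : (T.card : ℝ) = ∏ p ∈ C.primeFactors, ((Z p).ncard : ℝ) := by
    rw [hT, Fintype.card_piFinset]
    push_cast
    rw [← Finset.prod_coe_sort C.primeFactors (fun p => ((Z p).ncard : ℝ))]
    refine Finset.prod_congr rfl ?_
    intro p _
    rw [Set.ncard_eq_toFinset_card _ (hfin p)]
  set f : (Fin m → ℤ) → (∀ p : C.primeFactors, Fin m → ZMod (p : ℕ)) := fun a p => red (p : ℕ) a with hf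
  have hmaps : ∀ a ∈ A, f a ∈ T := by
    intro a ha
    rw [hT, Fintype.mem_piFinset]
    intro p
    rw [Set.Finite.mem_toFinset]
    rw [hA, Finset.mem_filter] at ha
    exact ha.2 p (Nat.prime_of_mem_primeFactors p.2) (Nat.dvd_of_mem_primeFactors p.2)
  have hsum := Finset.card_eq_sum_card_fiberwise hmaps
  have hfib : ∀ r ∈ T, (((A.filter (fun a => f a = r)).card : ℕ) : ℝ) ≤ ∏ i : Fin m, ((2 * (S i : ℝ) + 1) / C + 1) := by
    intro r _
    rcases (A.filter (fun a => f a = r)).eq_empty_or_nonempty with h0 | ⟨a₀, ha₀⟩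
    · rw [h0, Finset.card_empty, Nat.cast_zero]
      refine Finset.prod_nonneg ?_
      intro i _
      positivity
    · have hsub : A.filter (fun a => f a = r) ⊆ Fintype.piFinset (fun i =>
          (Finset.Icc (-(S i : ℤ)) (S i : ℤ)).filter (fun x => x ≡ a₀ i [ZMOD (C : ℤ)])) := by
        intro a ha
        rw [Fintype.mem_piFinset]
        intro i
        rw [Finset.mem_filter] at ha ha₀ ⊢
        have haB : a ∈ B := (Finset.mem_filter.1 ha.1).1
        refine ⟨?_, ?_⟩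
        · rw [Finset.mem_Icc, ← abs_le]
          exact (hmemB a).1 haB i
        · refine modEq_of_primes hC ?_
          intro p hp
          have e := congrFun (congrFun (ha.2.trans ha₀.2.symm) ⟨p, hp⟩) i
          exact e
      have h1 := Finset.card_le_card hsub
      rw [Fintype.card_piFinset] at h1
      calc (((A.filter (fun a => f a = r)).card : ℕ) : ℝ)
          ≤ ((∏ i : Fin m, ((Finset.Icc (-(S i : ℤ)) (S i : ℤ)).filter
            (fun x => x ≡ a₀ i [ZMOD (C : ℤ)])).card : ℕ) : ℝ) := by exact_mod_cast h1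
        _ = ∏ i : Fin m, ((((Finset.Icc (-(S i : ℤ)) (S i : ℤ)).filter
            (fun x => x ≡ a₀ i [ZMOD (C : ℤ)])).card : ℕ) : ℝ) := by push_cast; rfl
        _ ≤ _ := Finset.prod_le_prod (fun i _ => Nat.cast_nonneg _) (fun i _ => card_class_le (S i) C hC0 (a₀ i))
  calc ((A.card : ℕ) : ℝ) = ∑ r ∈ T, (((A.filter (fun a => f a = r)).card : ℕ) : ℝ) := by
        rw [hsum]
        push_cast
        rfl
    _ ≤ ∑ r ∈ T, ∏ i : Fin m, ((2 * (S i : ℝ) + 1) / C + 1) := Finset.sum_le_sum hfib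
    _ = (∏ i : Fin m, ((2 * (S i : ℝ) + 1) / C + 1)) * ∏ p ∈ C.primeFactors, ((Z p).ncard : ℝ) := by
        rw [Finset.sum_const, nsmul_eq_mul, hTc, mul_comm]

end Pool.Agent.H58.GF
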