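import Mathlib
import Pool.Agent.H7.GF.Basic
import Pool.Agent.H7.GF.Targets2

/-!
# MP_cd65c5_nt, modules SZ0, SZB, SZT: number of polynomials of given index modulo a prime
-/

set_option autoImplicit false

namespace Pool.Agent.H58.GF

open Polynomial NumberField Module
open Pool.Agent.H7.GF

section structure_

variable {p : ℕ} [Fact p.Prime]

theorem cast_ne {j : ℕ} (h1 : 1 ≤ j) (h2 : j < p) : (j : ZMod p) ≠ 0 := by
  intro h
  rw [ZMod.natCast_eq_zero_iff] at h
  exact absurd (Nat.le_of_dvd h1 h) (not_le.mpr h2)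

/-- a nonconstant monic polynomial of degree below `p` does not divide its derivative -/
theorem not_dvd_der {π : (ZMod p)[X]} (hm : π.Monic) (h1 : 1 ≤ π.natDegree) (h2 : π.natDegree < p) :
    ¬ π ∣ derivative π := by
  intro h
  have hlt : (derivative π).natDegree < π.natDegree := natDegree_derivative_lt (by omega)
  have h0 : derivative π = 0 := eq_zero_of_dvd_of_natDegree_lt h hlt
  have hc : (derivative π).coeff (π.natDegree - 1) = (π.natDegree : ZMod p) := by
    rw [coeff_derivative]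
    have e : π.natDegree - 1 + 1 = π.natDegree := by omega
    rw [e, hm.coeff_natDegree, one_mul]
    have e2 : ((π.natDegree - 1 : ℕ) : ZMod p) + 1 = ((π.natDegree - 1 + 1 : ℕ) : ZMod p) := by push_cast; ring
    rw [e2, e]
  rw [h0, coeff_zero] at hc
  exact cast_ne h1 h2 hc.symm

/-- splitting off a multiple irreducible factor -/
theorem split_off {f : (ZMod p)[X]} {n k : ℕ} (hf : f.Monic) (hn : f.natDegree = n) (hnp : n < p) (hk : 1 ≤ k)
    (hix : IXp k f) : ∃ (π u : (ZMod p)[X]) (e : ℕ), π.Monic ∧ u.Monic ∧ 2 ≤ e ∧ 1 ≤ π.natDegree ∧ f = π ^ e * u ∧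
      IXp (k - (e - 1) * π.natDegree) u := by
  obtain ⟨g, hg, hgk, hgf, hgf'⟩ := hix
  have hgu : ¬ IsUnit g := by
    intro h
    have := natDegree_eq_zero_of_isUnit h
    omega
  obtain ⟨π, hπm, hπi, hπg⟩ := Polynomial.exists_monic_irreducible_factor g hgu
  have hπp : Prime π := hπi.prime
  have hπ1 : 1 ≤ π.natDegree := hπi.natDegree_pos
  have hf0 : f ≠ 0 := hf.ne_zero
  have hπf : π ∣ f := hπg.trans hgf
  have hπf' : π ∣ derivative f := hπg.trans hgf'
  have hπn : π.natDegree ≤ n := by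
    rw [← hn]
    exact natDegree_le_of_dvd hπf hf0
  have hπd : ¬ π ∣ derivative π := not_dvd_der hπm hπ1 (by omega)
  have hfm : FiniteMultiplicity π f := FiniteMultiplicity.of_not_isUnit hπi.not_isUnit hf0
  obtain ⟨u, hu, hπu⟩ := hfm.exists_eq_pow_mul_and_not_dvd
  set e : ℕ := multiplicity π f with he
  have hum : u.Monic := by
    refine Monic.of_mul_monic_left (hπm.pow e) ?_
    rw [← hu]
    exact hf
  -- the derivative
  have hder : derivative f = C (e : ZMod p) * π ^ (e - 1) * derivative π * u + π ^ e * derivative u := by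
    rw [hu, derivative_mul, derivative_pow]
  have hdeg : n = e * π.natDegree + u.natDegree := by
    rw [← hn, hu, (hπm.pow e).natDegree_mul hum, hπm.natDegree_pow]
  have hen : e ≤ n := by
    have : e * 1 ≤ e * π.natDegree := Nat.mul_le_mul_left e hπ1
    omega
  have he2 : 2 ≤ e := by
    by_contra hcon
    push Not at hcon
    interval_cases h : e
    · rw [pow_zero, one_mul] at hu
      rw [hu] at hπf
      exact hπu hπf
    · simp only [Nat.cast_one, C_1, Nat.sub_self, pow_zero, mul_one, one_mul, pow_one] at hder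
      rw [hder] at hπf'
      have h1 : π ∣ derivative π * u := (dvd_add_left (dvd_mul_right π (derivative u))).mp hπf'
      rcases hπp.dvd_or_dvd h1 with h2 | h2
      · exact hπd h2
      · exact hπu h2
  have hec : (e : ZMod p) ≠ 0 := cast_ne (by omega) (by omega)
  -- the multiplicity in g
  have hg0 : g ≠ 0 := hg.ne_zero
  have hgm : FiniteMultiplicity π g := FiniteMultiplicity.of_not_isUnit hπi.not_isUnit hg0
  obtain ⟨g1, hg1, hπg1⟩ := hgm.exists_eq_pow_mul_and_not_dvd
  set a : ℕ := multiplicity π g with ha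
  have hg1m : g1.Monic := by
    refine Monic.of_mul_monic_left (hπm.pow a) ?_
    rw [← hg1]
    exact hg
  have hae : a ≤ e - 1 := by
    by_contra hcon
    push Not at hcon
    have hea : e ≤ a := by omega
    have h1 : π ^ e ∣ derivative f := by
      refine (pow_dvd_pow π hea).trans (Dvd.dvd.trans ?_ hgf')
      rw [hg1]
      exact dvd_mul_right _ _
    rw [hder] at h1
    have h2 : π ^ e ∣ C (e : ZMod p) * π ^ (e - 1) * derivative π * u :=
      (dvd_add_left (dvd_mul_right (π ^ e) (derivative u))).mp h1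
    have e3 : C (e : ZMod p) * π ^ (e - 1) * derivative π * u = π ^ (e - 1) * (C (e : ZMod p) * (derivative π * u)) := by
      ring
    have e4 : π ^ e = π ^ (e - 1) * π := by
      rw [← pow_succ]
      congr 1
      omega
    rw [e3, e4] at h2
    have h5 : π ∣ C (e : ZMod p) * (derivative π * u) :=
      (mul_dvd_mul_iff_left (pow_ne_zero _ hπm.ne_zero)).mp h2
    have hCu : IsUnit (C (e : ZMod p)) := isUnit_C.mpr (IsUnit.mk0 _ hec)
    have h6 : π ∣ derivative π * u := (hCu.dvd_mul_left).mp h5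
    rcases hπp.dvd_or_dvd h6 with h7 | h7
    · exact hπd h7
    · exact hπu h7
  have hcop : IsCoprime g1 (π ^ e) := ((hπi.coprime_iff_not_dvd.mpr hπg1).symm).pow_right
  have hg1f : g1 ∣ f := by
    refine Dvd.dvd.trans ?_ hgf
    rw [hg1]
    exact dvd_mul_left _ _
  have hg1u : g1 ∣ u := by
    rw [hu] at hg1f
    exact hcop.dvd_of_dvd_mul_left hg1f
  have hg1u' : g1 ∣ derivative u := by
    have h1 : g1 ∣ derivative f := by
      refine Dvd.dvd.trans ?_ hgf'
      rw [hg1]
      exact dvd_mul_left _ _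
    rw [hder] at h1
    have h2 : g1 ∣ C (e : ZMod p) * π ^ (e - 1) * derivative π * u := hg1u.mul_left _
    have h3 : g1 ∣ π ^ e * derivative u := (dvd_add_right h2).mp h1
    exact hcop.dvd_of_dvd_mul_left h3
  refine ⟨π, u, e, hπm, hum, he2, hπ1, hu, g1, hg1m, ?_, hg1u, hg1u'⟩
  have hgd : g.natDegree = a * π.natDegree + g1.natDegree := by
    rw [hg1, (hπm.pow a).natDegree_mul hg1m, hπm.natDegree_pow]
  have h1 : a * π.natDegree ≤ (e - 1) * π.natDegree := Nat.mul_le_mul_right _ hae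
  omega

end structure_

/-! ### counting monic polynomials -/

section counting

variable (p : ℕ) [Fact p.Prime]

/-- monic polynomials of degree `n` -/
def MonN (n : ℕ) : Set (ZMod p)[X] := {f | f.Monic ∧ f.natDegree = n}

theorem monN_inj (n : ℕ) : Set.InjOn (fun (f : (ZMod p)[X]) (i : Fin n) => f.coeff i) (MonN p n) := by
  intro f hf g hg h
  ext k
  rcases lt_trichotomy k n with hk | hk | hk
  · exact congrFun h ⟨k, hk⟩
  · rw [hk]
    have h1 := hf.1.coeff_natDegree
    have h2 := hg.1.coeff_natDegree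
    rw [hf.2] at h1
    rw [hg.2] at h2
    rw [h1, h2]
  · rw [coeff_eq_zero_of_natDegree_lt (by rw [hf.2]; exact hk), coeff_eq_zero_of_natDegree_lt (by rw [hg.2]; exact hk)]

theorem monN_finite (n : ℕ) : (MonN p n).Finite :=
  Set.Finite.of_finite_image (Set.toFinite _) (monN_inj p n)

theorem monN_ncard (n : ℕ) : (MonN p n).ncard ≤ p ^ n := by
  have h1 := Set.ncard_image_of_injOn (monN_inj p n)
  rw [← h1]
  refine (Set.ncard_le_ncard (Set.subset_univ _) (Set.toFinite _)).trans (le_of_eq ?_)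
  rw [Set.ncard_univ, Nat.card_eq_fintype_card, Fintype.card_fun, ZMod.card, Fintype.card_fin]

theorem monN_coeff (m : ℕ) (j : Fin (m + 1)) (c : ZMod p) :
    {f | f ∈ MonN p (m + 1) ∧ f.coeff (j : ℕ) = c}.ncard ≤ p ^ m := by
  have hinj : Set.InjOn (fun (f : (ZMod p)[X]) (i : Fin m) => f.coeff (j.succAbove i : ℕ))
      {f | f ∈ MonN p (m + 1) ∧ f.coeff (j : ℕ) = c} := by
    intro f hf g hg h
    refine monN_inj p (m + 1) hf.1 hg.1 ?_
    funext i
    rcases Fin.eq_self_or_eq_succAbove j i with hi | ⟨i', hi⟩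
    · rw [hi]
      exact hf.2.trans hg.2.symm
    · rw [hi]
      exact congrFun h i'
  rw [← Set.ncard_image_of_injOn hinj]
  refine (Set.ncard_le_ncard (Set.subset_univ _) (Set.toFinite _)).trans (le_of_eq ?_)
  rw [Set.ncard_univ, Nat.card_eq_fintype_card, Fintype.card_fun, ZMod.card, Fintype.card_fin]

/-- the interface of the coefficient functional -/
structure Cond (φ : (ZMod p)[X] → ZMod p) (A : Set (ZMod p)) : Prop where
  r1 : ∀ n, 1 ≤ n → ∀ c ∈ A, {f | f ∈ MonN p n ∧ φ f = c}.ncard ≤ p ^ (n - 1)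
  r2 : ∃ ψ : (ZMod p)[X] → ℕ → ZMod p → ZMod p, ∀ π u e c, π.Monic → u.Monic → c ∈ A → φ (π ^ e * u) = c →
    ψ π e c ∈ A ∧ φ u = ψ π e c
  r3 : ∀ e d, 1 ≤ e → e < p → 1 ≤ d → ∀ c ∈ A, {π | π ∈ MonN p d ∧ φ (π ^ e) = c}.ncard ≤ e * p ^ (d - 1)

/-- the set to be counted -/
def MS (φ : (ZMod p)[X] → ZMod p) (n k : ℕ) (c : ZMod p) : Set (ZMod p)[X] :=
  {f | f ∈ MonN p n ∧ IXp k f ∧ φ f = c}

theorem ms_finite (φ : (ZMod p)[X] → ZMod p) (n k : ℕ) (c : ZMod p) : (MS p φ n k c).Finite :=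
  (monN_finite p n).subset fun _ h => h.1

end counting

theorem count (n : ℕ) : 1 ≤ n → ∃ K : ℕ, ∀ (p : ℕ) [Fact p.Prime], n < p → ∀ (φ : (ZMod p)[X] → ZMod p)
    (A : Set (ZMod p)), Cond p φ A → ∀ c ∈ A, ∀ k, (MS p φ n k c).ncard * p ^ k ≤ K * p ^ (n - 1) := by
  induction n using Nat.strong_induction_on with
  | _ n ih =>
  intro hn
  have hK' : ∀ r : ℕ, ∃ K : ℕ, r < n → 1 ≤ r → ∀ (p : ℕ) [Fact p.Prime], r < p → ∀ (φ : (ZMod p)[X] → ZMod p)
      (A : Set (ZMod p)), Cond p φ A → ∀ c ∈ A, ∀ k, (MS p φ r k c).ncard * p ^ k ≤ K * p ^ (r - 1) := by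
    intro r
    by_cases h : r < n ∧ 1 ≤ r
    · obtain ⟨K, hK⟩ := ih r h.1 h.2
      exact ⟨K, fun _ _ => hK⟩
    · exact ⟨0, fun h1 h2 => absurd ⟨h1, h2⟩ h⟩
  choose K' hK' using hK'
  refine ⟨1 + ∑ e ∈ Finset.range (n + 1), ∑ d ∈ Finset.range (n + 1), (K' (n - e * d) + e), ?_⟩
  intro p hp hnp φ A hφ c hc k
  classical
  have hp1 : 1 ≤ p := hp.out.one_lt.le
  rcases Nat.eq_zero_or_pos k with hk | hk
  · subst hk
    rw [pow_zero, mul_one]
    have h1 : (MS p φ n 0 c).ncard ≤ p ^ (n - 1) := by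
      refine (Set.ncard_le_ncard ?_ ((monN_finite p n).subset fun _ h => h.1)).trans (hφ.r1 n hn c hc)
      intro f hf
      exact ⟨hf.1, hf.2.2⟩
    calc (MS p φ n 0 c).ncard ≤ 1 * p ^ (n - 1) := by rw [one_mul]; exact h1
      _ ≤ _ := Nat.mul_le_mul_right _ (Nat.le_add_right _ _)
  obtain ⟨ψ, hψ⟩ := hφ.r2
  set T : ℕ → ℕ → Set (ZMod p)[X] := fun e d => {f | ∃ π u : (ZMod p)[X], π ∈ MonN p d ∧ u ∈ MonN p (n - e * d) ∧
    e * d ≤ n ∧ 2 ≤ e ∧ 1 ≤ d ∧ IXp (k - (e - 1) * d) u ∧ f = π ^ e * u ∧ φ f = c} with hT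
  have hsub : MS p φ n k c ⊆ ⋃ e ∈ Finset.range (n + 1), ⋃ d ∈ Finset.range (n + 1), T e d := by
    intro f hf
    obtain ⟨⟨hfm, hfn⟩, hix, hfc⟩ := hf
    obtain ⟨π, u, e, hπ, hu, he, hπd, hfe, hixu⟩ := split_off hfm hfn hnp hk hix
    have hdeg : n = e * π.natDegree + u.natDegree := by
      rw [← hfn, hfe, (hπ.pow e).natDegree_mul hu, hπ.natDegree_pow]
    have h1 : e * 1 ≤ e * π.natDegree := Nat.mul_le_mul_left e hπd
    have h2 : 1 * π.natDegree ≤ e * π.natDegree := Nat.mul_le_mul_right _ (by omega)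
    refine Set.mem_iUnion₂.mpr ⟨e, Finset.mem_range.mpr (by omega), Set.mem_iUnion₂.mpr ⟨π.natDegree,
      Finset.mem_range.mpr (by omega), ?_⟩⟩
    exact ⟨π, u, ⟨hπ, rfl⟩, ⟨hu, by omega⟩, by omega, he, hπd, hixu, hfe, hfc⟩
  have hTfin : ∀ e d, (T e d).Finite := by
    intro e d
    refine (monN_finite p n).subset ?_
    rintro f ⟨π, u, hπ, hu, hed, _, _, _, hfe, _⟩
    refine ⟨?_, ?_⟩
    · rw [hfe]
      exact (hπ.1.pow e).mul hu.1
    · rw [hfe, (hπ.1.pow e).natDegree_mul hu.1, hπ.1.natDegree_pow, hπ.2, hu.2]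
      omega
  have hTb : ∀ e d, (T e d).ncard * p ^ k ≤ (K' (n - e * d) + e) * p ^ (n - 1) := by
    intro e d
    by_cases hne : (T e d).Nonempty
    swap
    · rw [Set.not_nonempty_iff_eq_empty.mp hne, Set.ncard_empty, zero_mul]
      exact Nat.zero_le _
    obtain ⟨f0, π0, u0, hπ0, hu0, hed, he2, hd1, hix0, _, _⟩ := hne
    have hek : p ^ k ≤ p ^ (k - (e - 1) * d) * p ^ ((e - 1) * d) := by
      rw [← pow_add]
      exact Nat.pow_le_pow_right hp1 (by omega)
    have hsplit : e * d = (e - 1) * d + d := by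
      obtain ⟨e', rfl⟩ : ∃ e', e = e' + 1 := ⟨e - 1, by omega⟩
      rw [Nat.add_sub_cancel]
      ring
    rcases Nat.eq_or_lt_of_le hed with heq | hlt
    · -- u = 1
      have hk0 : k ≤ (e - 1) * d := by
        obtain ⟨g, hg, hgk, hgu, -⟩ := hix0
        have hu1 : u0.natDegree = 0 := by
          rw [hu0.2]
          omega
        have := natDegree_le_of_dvd hgu hu0.1.ne_zero
        omega
      have hsub2 : T e d ⊆ (fun π : (ZMod p)[X] => π ^ e) '' {π | π ∈ MonN p d ∧ φ (π ^ e) = c} := by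
        rintro f ⟨π, u, hπ, hu, _, _, _, _, hfe, hfc⟩
        have hu1 : u = 1 := (Monic.natDegree_eq_zero hu.1).mp (by rw [hu.2]; omega)
        rw [hu1, mul_one] at hfe
        exact ⟨π, ⟨hπ, by rw [← hfe]; exact hfc⟩, hfe.symm⟩
      have hfin : {π | π ∈ MonN p d ∧ φ (π ^ e) = c}.Finite := (monN_finite p d).subset fun _ h => h.1
      have h1 : (T e d).ncard ≤ e * p ^ (d - 1) := by
        refine (Set.ncard_le_ncard hsub2 (hfin.image _)).trans ((Set.ncard_image_le hfin).trans ?_)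
        refine hφ.r3 e d (by omega) ?_ hd1 c hc
        have : e * 1 ≤ e * d := Nat.mul_le_mul_left e hd1
        omega
      calc (T e d).ncard * p ^ k ≤ (e * p ^ (d - 1)) * p ^ ((e - 1) * d) :=
            Nat.mul_le_mul h1 (Nat.pow_le_pow_right hp1 hk0)
        _ = e * p ^ (n - 1) := by
            rw [mul_assoc, ← pow_add]
            congr 2
            omega
        _ ≤ _ := Nat.mul_le_mul_right _ (Nat.le_add_left _ _)
    · -- u nonconstant
      have hr1 : 1 ≤ n - e * d := by omega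
      have hrn : n - e * d < n := by
        have : 1 * 1 ≤ e * d := Nat.mul_le_mul (by omega) hd1
        omega
      have hIH := hK' (n - e * d) hrn hr1 p (by omega) φ A hφ
      have hsub2 : T e d ⊆ ⋃ π ∈ (monN_finite p d).toFinset,
          (if ψ π e c ∈ A then (fun u : (ZMod p)[X] => π ^ e * u) '' MS p φ (n - e * d) (k - (e - 1) * d) (ψ π e c)
            else ∅) := by
        rintro f ⟨π, u, hπ, hu, _, _, _, hixu, hfe, hfc⟩
        have h := hψ π u e c hπ.1 hu.1 hc (by rw [← hfe]; exact hfc)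
        refine Set.mem_iUnion₂.mpr ⟨π, (Set.Finite.mem_toFinset _).mpr hπ, ?_⟩
        rw [if_pos h.1]
        exact ⟨u, ⟨hu, hixu, h.2⟩, hfe.symm⟩
      have hterm : ∀ π : (ZMod p)[X], (if ψ π e c ∈ A then
          (fun u : (ZMod p)[X] => π ^ e * u) '' MS p φ (n - e * d) (k - (e - 1) * d) (ψ π e c) else ∅).ncard
            * p ^ (k - (e - 1) * d) ≤ K' (n - e * d) * p ^ (n - e * d - 1) := by
        intro π
        by_cases h : ψ π e c ∈ A
        · rw [if_pos h]
          exact (Nat.mul_le_mul_right _ (Set.ncard_image_le (ms_finite p φ _ _ _))).trans (hIH _ h _)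
        · rw [if_neg h, Set.ncard_empty, zero_mul]
          exact Nat.zero_le _
      have hfinU : (⋃ π ∈ (monN_finite p d).toFinset,
          (if ψ π e c ∈ A then (fun u : (ZMod p)[X] => π ^ e * u) '' MS p φ (n - e * d) (k - (e - 1) * d) (ψ π e c)
            else ∅)).Finite := by
        refine Set.Finite.biUnion (Finset.finite_toSet _) fun π _ => ?_
        by_cases h : ψ π e c ∈ A
        · rw [if_pos h]
          exact (ms_finite p φ _ _ _).image _
        · rw [if_neg h]
          exact Set.finite_empty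
      have h1 : (T e d).ncard * p ^ (k - (e - 1) * d) ≤ p ^ d * (K' (n - e * d) * p ^ (n - e * d - 1)) := by
        calc (T e d).ncard * p ^ (k - (e - 1) * d)
            ≤ (∑ π ∈ (monN_finite p d).toFinset, (if ψ π e c ∈ A then
              (fun u : (ZMod p)[X] => π ^ e * u) '' MS p φ (n - e * d) (k - (e - 1) * d) (ψ π e c) else ∅).ncard)
              * p ^ (k - (e - 1) * d) :=
              Nat.mul_le_mul_right _ ((Set.ncard_le_ncard hsub2 hfinU).trans (Finset.set_ncard_biUnion_le _ _))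
          _ = ∑ π ∈ (monN_finite p d).toFinset, (if ψ π e c ∈ A then
              (fun u : (ZMod p)[X] => π ^ e * u) '' MS p φ (n - e * d) (k - (e - 1) * d) (ψ π e c) else ∅).ncard
              * p ^ (k - (e - 1) * d) := Finset.sum_mul _ _ _
          _ ≤ ∑ _π ∈ (monN_finite p d).toFinset, K' (n - e * d) * p ^ (n - e * d - 1) :=
              Finset.sum_le_sum fun π _ => hterm π
          _ = (monN_finite p d).toFinset.card * (K' (n - e * d) * p ^ (n - e * d - 1)) := by
              rw [Finset.sum_const, smul_eq_mul]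
          _ ≤ p ^ d * (K' (n - e * d) * p ^ (n - e * d - 1)) := by
              refine Nat.mul_le_mul_right _ ?_
              rw [← Set.ncard_eq_toFinset_card _ (monN_finite p d)]
              exact monN_ncard p d
      calc (T e d).ncard * p ^ k ≤ (T e d).ncard * (p ^ (k - (e - 1) * d) * p ^ ((e - 1) * d)) :=
            Nat.mul_le_mul_left _ hek
        _ = ((T e d).ncard * p ^ (k - (e - 1) * d)) * p ^ ((e - 1) * d) := by ring
        _ ≤ (p ^ d * (K' (n - e * d) * p ^ (n - e * d - 1))) * p ^ ((e - 1) * d) := Nat.mul_le_mul_right _ h1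
        _ = K' (n - e * d) * p ^ (d + (n - e * d - 1) + (e - 1) * d) := by
            rw [pow_add, pow_add]
            ring
        _ = K' (n - e * d) * p ^ (n - 1) := by
            congr 2
            omega
        _ ≤ _ := Nat.mul_le_mul_right _ (Nat.le_add_right _ _)
  have hfinU : (⋃ e ∈ Finset.range (n + 1), ⋃ d ∈ Finset.range (n + 1), T e d).Finite :=
    Set.Finite.biUnion (Finset.finite_toSet _) fun e _ => Set.Finite.biUnion (Finset.finite_toSet _) fun d _ => hTfin e d
  calc (MS p φ n k c).ncard * p ^ k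
      ≤ (∑ e ∈ Finset.range (n + 1), ∑ d ∈ Finset.range (n + 1), (T e d).ncard) * p ^ k := by
        refine Nat.mul_le_mul_right _ ((Set.ncard_le_ncard hsub hfinU).trans ?_)
        refine (Finset.set_ncard_biUnion_le _ _).trans (Finset.sum_le_sum fun e _ => ?_)
        exact Finset.set_ncard_biUnion_le _ _
    _ = ∑ e ∈ Finset.range (n + 1), ∑ d ∈ Finset.range (n + 1), (T e d).ncard * p ^ k := by
        rw [Finset.sum_mul]
        exact Finset.sum_congr rfl fun e _ => Finset.sum_mul _ _ _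
    _ ≤ ∑ e ∈ Finset.range (n + 1), ∑ d ∈ Finset.range (n + 1), (K' (n - e * d) + e) * p ^ (n - 1) :=
        Finset.sum_le_sum fun e _ => Finset.sum_le_sum fun d _ => hTb e d
    _ = (∑ e ∈ Finset.range (n + 1), ∑ d ∈ Finset.range (n + 1), (K' (n - e * d) + e)) * p ^ (n - 1) := by
        rw [Finset.sum_mul]
        exact Finset.sum_congr rfl fun e _ => (Finset.sum_mul _ _ _).symm
    _ ≤ _ := Nat.mul_le_mul_right _ (Nat.le_add_left _ _)

/-! ### the two functionals -/

theorem cond_zero (p : ℕ) [Fact p.Prime] : Cond p (fun f => f.coeff 0) {c | c ≠ 0} := by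
  constructor
  · intro n hn c _
    obtain ⟨m, rfl⟩ : ∃ m, n = m + 1 := ⟨n - 1, by omega⟩
    exact monN_coeff p m 0 c
  · refine ⟨fun π e c => c / (π.coeff 0) ^ e, fun π u e c _ _ hc h => ?_⟩
    simp only [coeff_zero_eq_eval_zero, eval_mul, eval_pow] at h ⊢
    have h1 : (eval 0 π) ^ e ≠ 0 := by
      intro h0
      rw [h0, zero_mul] at h
      exact hc h.symm
    have h2 : eval 0 u ≠ 0 := by
      intro h0
      rw [h0, mul_zero] at h
      exact hc h.symm
    refine ⟨div_ne_zero hc h1, ?_⟩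
    rw [← h]
    field_simp
  · intro e d he _ hd c _
    obtain ⟨m, rfl⟩ : ∃ m, d = m + 1 := ⟨d - 1, by omega⟩
    rw [Nat.add_sub_cancel]
    classical
    have hsub : {π | π ∈ MonN p (m + 1) ∧ (fun f : (ZMod p)[X] => f.coeff 0) (π ^ e) = c} ⊆
        ⋃ r ∈ (nthRoots e c).toFinset, {f | f ∈ MonN p (m + 1) ∧ f.coeff ((0 : Fin (m + 1)) : ℕ) = r} := by
      rintro π ⟨hπ, hc'⟩
      refine Set.mem_iUnion₂.mpr ⟨π.coeff 0, ?_, hπ, rfl⟩
      rw [Multiset.mem_toFinset, mem_nthRoots he]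
      simp only [coeff_zero_eq_eval_zero, eval_pow] at hc' ⊢
      exact hc'
    have hfin : (⋃ r ∈ (nthRoots e c).toFinset,
        {f | f ∈ MonN p (m + 1) ∧ f.coeff ((0 : Fin (m + 1)) : ℕ) = r}).Finite :=
      Set.Finite.biUnion (Finset.finite_toSet _) fun r _ => (monN_finite p (m + 1)).subset fun _ h => h.1
    refine (Set.ncard_le_ncard hsub hfin).trans ((Finset.set_ncard_biUnion_le _ _).trans ?_)
    refine (Finset.sum_le_sum fun r _ => monN_coeff p m 0 r).trans ?_
    rw [Finset.sum_const, smul_eq_mul]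
    refine Nat.mul_le_mul_right _ ?_
    exact (Multiset.toFinset_card_le _).trans (card_nthRoots e c)

theorem next_eq {p : ℕ} [Fact p.Prime] {m : ℕ} {f : (ZMod p)[X]} (hf : f ∈ MonN p (m + 1)) :
    f.nextCoeff = f.coeff m := by
  rw [nextCoeff_of_natDegree_pos (by rw [hf.2]; omega), hf.2, Nat.add_sub_cancel]

theorem cond_next (p : ℕ) [Fact p.Prime] : Cond p (fun f => f.nextCoeff) Set.univ := by
  have key : ∀ n, 1 ≤ n → ∀ c, {f | f ∈ MonN p n ∧ f.nextCoeff = c}.ncard ≤ p ^ (n - 1) := by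
    intro n hn c
    obtain ⟨m, rfl⟩ : ∃ m, n = m + 1 := ⟨n - 1, by omega⟩
    rw [Nat.add_sub_cancel]
    have h := monN_coeff p m (Fin.last m) c
    refine le_trans (Set.ncard_le_ncard ?_ ((monN_finite p (m + 1)).subset fun _ h => h.1)) h
    rintro f ⟨hf, hc⟩
    refine ⟨hf, ?_⟩
    rw [← hc, next_eq hf, Fin.val_last]
  constructor
  · intro n hn c _
    exact key n hn c
  · refine ⟨fun π e c => c - e • π.nextCoeff, fun π u e c hπ hu _ h => ⟨Set.mem_univ _, ?_⟩⟩
    have h1 : (π ^ e * u).nextCoeff = c := h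
    rw [(hπ.pow e).nextCoeff_mul hu, hπ.nextCoeff_pow] at h1
    show u.nextCoeff = c - e • π.nextCoeff
    rw [← h1]
    ring
  · intro e d he hep hd c _
    have hec : (e : ZMod p) ≠ 0 := cast_ne he hep
    have hsub : {π | π ∈ MonN p d ∧ (fun f : (ZMod p)[X] => f.nextCoeff) (π ^ e) = c} ⊆
        {f | f ∈ MonN p d ∧ f.nextCoeff = c / e} := by
      rintro π ⟨hπ, hc⟩
      refine ⟨hπ, ?_⟩
      have h1 : (π ^ e).nextCoeff = c := hc
      rw [hπ.1.nextCoeff_pow, nsmul_eq_mul] at h1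
      rw [eq_div_iff hec, mul_comm]
      exact h1
    refine (Set.ncard_le_ncard hsub ((monN_finite p d).subset fun _ h => h.1)).trans ((key d hd _).trans ?_)
    exact Nat.le_mul_of_pos_left _ he

/-! ### the targets -/

theorem szb : T_SZB := by
  intro m _
  obtain ⟨K, hK⟩ := count (m + 1) (by omega)
  refine ⟨K, fun p hp hmp b hb k => ?_⟩
  have h := hK p hmp _ _ (cond_zero p) b hb k
  rw [Nat.add_sub_cancel] at h
  refine (Nat.mul_le_mul_right _ ?_).trans h
  have hinj : Set.InjOn (fun a : Fin m → ZMod p => pol b a) {a | IXp k (pol b a)} :=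
    fun a _ a' _ h => pol_injective b h
  rw [← Set.ncard_image_of_injOn hinj]
  refine Set.ncard_le_ncard ?_ (ms_finite p _ _ _ _)
  rintro f ⟨a, ha, rfl⟩
  exact ⟨⟨pol_monic b a, pol_natDegree b a⟩, ha, pol_coeff_zero b a⟩

section polt

variable {p : ℕ} [Fact p.Prime] {m : ℕ}

/-- the generic monic polynomial -/
noncomputable def gen {n : ℕ} (a : Fin n → ZMod p) : (ZMod p)[X] := X ^ n + ∑ i : Fin n, C (a i) * X ^ (i : ℕ)

theorem gen_deg {n : ℕ} (a : Fin n → ZMod p) :
    (∑ i : Fin n, C (a i) * X ^ (i : ℕ) : (ZMod p)[X]).degree < (n : WithBot ℕ) := by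
  refine lt_of_le_of_lt (degree_sum_le _ _) ?_
  rw [Finset.sup_lt_iff (WithBot.bot_lt_coe _)]
  intro i _
  refine lt_of_le_of_lt (degree_C_mul_X_pow_le _ _) ?_
  exact_mod_cast i.2

theorem gen_mem {n : ℕ} (a : Fin n → ZMod p) : gen a ∈ MonN p n := by
  constructor
  · exact monic_X_pow_add (gen_deg a)
  · unfold gen
    rw [natDegree_add_eq_left_of_degree_lt]
    · simp
    · simpa using gen_deg a

theorem gen_coeff {n : ℕ} (a : Fin n → ZMod p) (i : Fin n) : (gen a).coeff i = a i := by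
  unfold gen
  rw [coeff_add, coeff_X_pow, if_neg (by have := i.2; omega), zero_add, finsetSum_coeff, Finset.sum_eq_single i]
  · simp
  · intro j _ hj
    have : ¬ ((i : ℕ) = (j : ℕ)) := fun h => hj (Fin.ext h.symm)
    simp [coeff_X_pow, this]
  · simp

theorem gen_inj {n : ℕ} : Function.Injective (gen (p := p) (n := n)) := by
  intro a a' h
  funext i
  rw [← gen_coeff a i, h, gen_coeff]

theorem polt_eq (t : ZMod p) (a : Fin m → ZMod p) : polt t a = gen (Fin.snoc a t : Fin (m + 1) → ZMod p) := by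
  unfold polt gen
  rw [Fin.sum_univ_castSucc]
  simp only [Fin.snoc_castSucc, Fin.snoc_last, Fin.val_castSucc, Fin.val_last]
  ring

end polt

theorem szt : T_SZT := by
  intro m _
  obtain ⟨K, hK⟩ := count (m + 1) (by omega)
  refine ⟨K, fun p hp hmp t k => ?_⟩
  have h := hK p hmp _ _ (cond_next p) t (Set.mem_univ _) k
  rw [Nat.add_sub_cancel] at h
  refine (Nat.mul_le_mul_right _ ?_).trans h
  have hinj : Set.InjOn (fun a : Fin m → ZMod p => polt t a) {a | IXp k (polt t a)} := by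
    intro a _ a' _ h
    simp only [polt_eq] at h
    have h2 := gen_inj h
    funext i
    have h3 := congrFun h2 (Fin.castSucc i)
    simpa using h3
  rw [← Set.ncard_image_of_injOn hinj]
  refine Set.ncard_le_ncard ?_ (ms_finite p _ _ _ _)
  rintro f ⟨a, ha, rfl⟩
  refine ⟨?_, ha, ?_⟩
  · simp only [polt_eq]
    exact gen_mem _
  · show (polt t a).nextCoeff = t
    rw [polt_eq, next_eq (gen_mem _)]
    have := gen_coeff (Fin.snoc a t : Fin (m + 1) → ZMod p) (Fin.last m)
    rw [Fin.snoc_last, Fin.val_last] at this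
    exact this

theorem sz0 : T_SZ0 := by
  intro n hn
  obtain ⟨K, hK⟩ := count n hn
  refine ⟨K, fun p hp hnp k => ?_⟩
  have hinj : Set.InjOn (fun a : Fin n → ZMod p => gen a) {a | IXp k (gen a)} := fun a _ a' _ h => gen_inj h
  have e : {a : Fin n → ZMod p | IXp k (X ^ n + ∑ i : Fin n, C (a i) * X ^ (i : ℕ) : (ZMod p)[X])} =
      {a | IXp k (gen a)} := rfl
  rw [e, ← Set.ncard_image_of_injOn hinj]
  have hsub : (fun a : Fin n → ZMod p => gen a) '' {a | IXp k (gen a)} ⊆
      ⋃ c ∈ (Finset.univ : Finset (ZMod p)), MS p (fun f => f.nextCoeff) n k c := by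
    rintro f ⟨a, ha, rfl⟩
    exact Set.mem_iUnion₂.mpr ⟨(gen a).nextCoeff, Finset.mem_univ _, gen_mem a, ha, rfl⟩
  have hfin : (⋃ c ∈ (Finset.univ : Finset (ZMod p)), MS p (fun f => f.nextCoeff) n k c).Finite :=
    Set.Finite.biUnion (Finset.finite_toSet _) fun c _ => ms_finite p _ _ _ _
  calc _ ≤ (∑ c : ZMod p, (MS p (fun f => f.nextCoeff) n k c).ncard) * p ^ k :=
        Nat.mul_le_mul_right _ ((Set.ncard_le_ncard hsub hfin).trans (Finset.set_ncard_biUnion_le _ _))
    _ = ∑ c : ZMod p, (MS p (fun f => f.nextCoeff) n k c).ncard * p ^ k := Finset.sum_mul _ _ _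
    _ ≤ ∑ _c : ZMod p, K * p ^ (n - 1) :=
        Finset.sum_le_sum fun c _ => hK p hnp _ _ (cond_next p) c (Set.mem_univ _) k
    _ = p * (K * p ^ (n - 1)) := by
        rw [Finset.sum_const, smul_eq_mul, Finset.card_univ, ZMod.card]
    _ = K * p ^ n := by
        obtain ⟨m, rfl⟩ : ∃ m, n = m + 1 := ⟨n - 1, by omega⟩
        rw [Nat.add_sub_cancel, pow_succ]
        ring

end Pool.Agent.H58.GF
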